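import Pool.Agent.helper42.NS.Spec2

/-! # Row nos2:FIN (MP_abccb5_co): residue fields of the points are finite -/

set_option linter.unusedVariables false

namespace Pool.Agent.helper42.NS

open Polynomial Matrix

theorem FIN_jac : IsJacobsonRing ℤ := by
  rw [isJacobsonRing_iff_prime_eq]
  intro P hP
  by_cases h : P = ⊥
  · subst h
    rw [eq_bot_iff]
    intro x hx
    rw [Ideal.mem_jacobson_bot] at hx
    have h1 := hx x
    rw [Int.isUnit_iff] at h1
    rw [Ideal.mem_bot]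
    rcases h1 with h1 | h1 <;> nlinarith
  · have h1 : P.IsMaximal := hP.isMaximal h
    exact Ideal.jacobson_eq_self_of_isMaximal

theorem FIN_prime (P : Pt) : ∃ p : ℕ, p.Prime ∧ Above p P ∧
    ∀ p' : ℕ, p'.Prime → Above p' P → p' = p := by
  have hJ := FIN_jac
  have hM := P.isMaximal
  have hm : (P.asIdeal.comap (C : ℤ →+* ℤ[X])).IsMaximal :=
    Polynomial.isMaximal_comap_C_of_isJacobsonRing P.asIdeal
  have h0 : P.asIdeal.comap (C : ℤ →+* ℤ[X]) ≠ ⊥ :=
    Ring.ne_bot_of_isMaximal_of_not_isField hm Int.not_isField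
  obtain ⟨g, hg⟩ := (IsPrincipalIdealRing.principal (P.asIdeal.comap (C : ℤ →+* ℤ[X]))).principal
  have hg' : P.asIdeal.comap (C : ℤ →+* ℤ[X]) = Ideal.span {g} := hg
  have hg0 : g ≠ 0 := by
    intro h
    apply h0
    rw [hg', h, Ideal.span_singleton_eq_bot]
  have hgp : Prime g := by
    rw [← Ideal.span_singleton_prime hg0, ← hg']
    exact hm.isPrime
  have hab : ∀ m : ℕ, Above m P ↔ g ∣ (m : ℤ) := by
    intro m
    rw [← Ideal.mem_span_singleton, ← hg', Ideal.mem_comap]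
    show ((m : ℕ) : ℤ[X]) ∈ P.asIdeal ↔ _
    rw [show (C : ℤ →+* ℤ[X]) (m : ℤ) = ((m : ℕ) : ℤ[X]) by simp]
  refine ⟨g.natAbs, Int.prime_iff_natAbs_prime.1 hgp, ?_, ?_⟩
  · rw [hab]
    exact Int.dvd_natAbs.2 (dvd_refl g)
  · intro p' hp' h
    rw [hab] at h
    have h1 : g.natAbs ∣ p' := Int.natAbs_dvd_natAbs.2 h |> fun h => by simpa using h
    exact ((Nat.prime_dvd_prime_iff_eq (Int.prime_iff_natAbs_prime.1 hgp) hp').1 h1).symm

theorem FIN_zero (P : Pt) (p : ℕ) (h : Above p P) : ((p : ℕ) : KP P) = 0 := by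
  have h1 : Ideal.Quotient.mk P.asIdeal ((p : ℕ) : ℤ[X]) = 0 := Ideal.Quotient.eq_zero_iff_mem.2 h
  rwa [map_natCast] at h1

theorem FIN_field (K : Type) [Field K] [Module.Finite ℤ K] (p : ℕ) (hp : p.Prime)
    (h : (p : K) = 0) : Finite K ∧ ∃ d : ℕ, 0 < d ∧ Nat.card K = p ^ d := by
  have : Fact p.Prime := ⟨hp⟩
  have hc : CharP K p := by
    obtain ⟨q, hq⟩ := CharP.exists K
    have h1 : q ∣ p := (CharP.cast_eq_zero_iff K q p).1 h
    rcases (Nat.dvd_prime hp).1 h1 with rfl | rfl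
    · exact absurd rfl (CharP.char_ne_one K 1)
    · exact hq
  let _ := ZMod.algebra K p
  have : Module.Finite (ZMod p) K := Module.Finite.of_restrictScalars_finite ℤ (ZMod p) K
  have hf : Finite K := Module.finite_of_finite (ZMod p)
  refine ⟨hf, ?_⟩
  let _ := Fintype.ofFinite K
  obtain ⟨n, -, hn⟩ := FiniteField.card K p
  exact ⟨n, n.pos, by rw [Nat.card_eq_fintype_card, hn]⟩

theorem FIN_fin (P : Pt) : Module.Finite ℤ (KP P) := by
  have hJ := FIN_jac
  have hM := P.isMaximal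
  let _ := Ideal.Quotient.field P.asIdeal
  have : Algebra.FiniteType ℤ (KP P) := inferInstance
  exact finite_of_finite_type_of_isJacobsonRing ℤ (KP P)

theorem FIN : FIN_stmt := by
  intro P
  have hM := P.isMaximal
  let _ := Ideal.Quotient.field P.asIdeal
  have hfin := FIN_fin P
  obtain ⟨p, hp, hab, hu⟩ := FIN_prime P
  obtain ⟨h1, h2⟩ := FIN_field (KP P) p hp (FIN_zero P p hab)
  exact ⟨h1, p, hp, hab, hu, h2⟩

end Pool.Agent.helper42.NS
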