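import Pool.Agent.helper42.NS.Spec

set_option autoImplicit false

/-!
# Row DT3: a bad point lies above a prime divisor of the determinant
-/

namespace Pool.Agent.helper42.NS

open Polynomial Matrix

theorem DT3_nat (P : Ideal ℤ[X]) (hP : P.IsPrime) : ∀ n : ℕ, n ≠ 0 → ((n : ℕ) : ℤ[X]) ∈ P →
    ∃ p : ℕ, p.Prime ∧ p ∣ n ∧ ((p : ℕ) : ℤ[X]) ∈ P := by
  intro n
  induction n using Nat.strong_induction_on with
  | _ n ih =>
    intro hn hnP
    have h1 : n ≠ 1 := by
      rintro rfl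
      rw [Nat.cast_one] at hnP
      exact hP.ne_top ((Ideal.eq_top_iff_one P).2 hnP)
    obtain ⟨m, hm⟩ := Nat.minFac_dvd n
    have hp := Nat.minFac_prime h1
    have hnP' : ((n.minFac : ℕ) : ℤ[X]) * ((m : ℕ) : ℤ[X]) ∈ P := by
      rw [← Nat.cast_mul, ← hm]
      exact hnP
    have hm0 : m ≠ 0 := by
      rintro rfl
      rw [mul_zero] at hm
      exact hn hm
    rcases hP.mem_or_mem hnP' with h | h
    · exact ⟨n.minFac, hp, Nat.minFac_dvd n, h⟩
    · have hlt : m < n := by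
        have h2 := hp.two_le
        have h3 : 0 < m := Nat.pos_of_ne_zero hm0
        calc m < 2 * m := by omega
          _ ≤ n.minFac * m := Nat.mul_le_mul_right m h2
          _ = n := hm.symm
      obtain ⟨p, h4, h5, h6⟩ := ih m hlt hm0 h
      exact ⟨p, h4, h5.trans ⟨n.minFac, by rw [mul_comm]; exact hm⟩, h6⟩

theorem DT3_step {K : Type} [CommRing K] {lam : K} {t : ℕ} {H : Matrix (Fin t) (Fin t) ℤ}
    (hH : ∀ i j, H i j = H j i) {u : Fin t → K} (hu : u ∈ EigK K lam H) (y : Fin t → ℤ) :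
    ∑ j, ((H.mulVec y) j : K) * u j = lam * ∑ j, (y j : K) * u j := by
  rw [mem_EigK] at hu
  have h1 : ∀ j, ((H.mulVec y) j : K) * u j = ∑ i, (y i : K) * ((H i j : K) * u j) := by
    intro j
    have h2 : (H.mulVec y) j = ∑ i, H j i * y i := rfl
    rw [h2, Int.cast_sum, Finset.sum_mul]
    refine Finset.sum_congr rfl fun i _ => ?_
    rw [Int.cast_mul, hH j i]
    ring
  rw [Finset.sum_congr rfl fun j _ => h1 j, Finset.sum_comm, Finset.mul_sum]
  refine Finset.sum_congr rfl fun i _ => ?_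
  rw [← Finset.mul_sum, hu i]
  ring

theorem DT3_pow {K : Type} [CommRing K] {lam : K} {t : ℕ} {H : Matrix (Fin t) (Fin t) ℤ}
    (hH : ∀ i j, H i j = H j i) {u : Fin t → K} (hu : u ∈ EigK K lam H) (y : Fin t → ℤ) (l : ℕ) :
    ∑ j, (((H ^ l).mulVec y) j : K) * u j = lam ^ l * ∑ j, (y j : K) * u j := by
  induction l with
  | zero => rw [pow_zero, pow_zero, Matrix.one_mulVec, one_mul]
  | succ l ih =>
    have h1 : (H ^ (l + 1)).mulVec y = H.mulVec ((H ^ l).mulVec y) := by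
      rw [pow_succ', Matrix.mulVec_mulVec]
    rw [h1, DT3_step hH hu, ih, pow_succ']
    ring

theorem DT3_ind {K : Type} [CommRing K] {t : ℕ} (b : Fin t → Bool) (u : Fin t → K) :
    ∑ j, (ind b j : K) * u j = dotb b u := by
  unfold ind dotb
  refine Finset.sum_congr rfl fun j _ => ?_
  by_cases h : b j = true
  · rw [if_pos h, if_pos h, Int.cast_one, one_mul]
  · rw [if_neg h, if_neg h, Int.cast_zero, zero_mul]

theorem DT3 : DT3_stmt := by
  intro t k H B l c P hH hbad hdet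
  obtain ⟨u, hu, hu0, hB⟩ := hbad
  set M : Matrix (Fin t) (Fin t) ℤ :=
    Matrix.of fun a j => ((H ^ l a).mulVec (ind (B (c a)))) j with hM
  have hPp : P.asIdeal.IsPrime := P.isMaximal.isPrime
  have hdom : IsDomain (KP P) := inferInstance
  have h1 : (M.map (fun z : ℤ => (z : KP P))).mulVec u = 0 := by
    funext a
    have h2 : (M.map (fun z : ℤ => (z : KP P))).mulVec u a =
        ∑ j, (((H ^ l a).mulVec (ind (B (c a)))) j : KP P) * u j := rfl
    rw [h2, DT3_pow hH hu, DT3_ind, hB, mul_zero]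
    rfl
  have h2 : (M.map (fun z : ℤ => (z : KP P))).det = 0 :=
    Matrix.exists_mulVec_eq_zero_iff.1 ⟨u, hu0, h1⟩
  have h3 : (M.map (fun z : ℤ => (z : KP P))).det = ((M.det : ℤ) : KP P) := by
    have := RingHom.map_det (Int.castRingHom (KP P)) M
    exact this.symm
  rw [h3] at h2
  have h4 : ((M.det : ℤ) : ℤ[X]) ∈ P.asIdeal := by
    rw [← Ideal.Quotient.eq_zero_iff_mem, map_intCast]
    exact h2
  have h5 : ((M.det.natAbs : ℕ) : ℤ[X]) ∈ P.asIdeal := by
    have h6 : (((M.det.natAbs : ℕ) : ℤ) : ℤ[X]) ∈ P.asIdeal := by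
      rcases Int.natAbs_eq M.det with h | h
      · rw [← h]
        exact h4
      · have h7 : ((M.det.natAbs : ℕ) : ℤ) = -M.det := by omega
        rw [h7, Int.cast_neg]
        exact P.asIdeal.neg_mem h4
    rwa [Int.cast_natCast] at h6
  obtain ⟨p, hp, hpd, hpP⟩ := DT3_nat P.asIdeal hPp _ (Int.natAbs_ne_zero.2 hdet) h5
  exact ⟨p, hp, hpd, hpP⟩

end Pool.Agent.helper42.NS
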